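import Pool.Agent.Y746.OM.Stm2
import Pool.Agent.Y474.OM.Cnt

set_option autoImplicit false

/-!
Project OM, job OM2-CNT2: comparison of the sum of the kernel over the zeros with the numbers of
zeros in intervals, with exceptional sets (after `Pool/Agent/Y474/OM/Cnt.lean` by helper474).
-/

namespace Pool.Agent.Y258.OM2

open Finset Filter Topology MeasureTheory
open H370 (zset mult NN Zf zz)
open Pool.Agent.Y746.OM Pool.Agent.Y474.OM

noncomputable section

/-- the number of points in a window is at most logarithmic -/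
theorem nw_log (h : ℝ) : ∃ C : ℝ, 0 < C ∧ ∀ T : ℝ, 4 ≤ T → ∀ U1 U2 : ℝ, T ≤ U1 → U2 ≤ 2 * T →
    ∀ t w : ℝ, nw (Zf riemannZeta U1 U2) (fun s => (mult riemannZeta s : ℝ)) t h w ≤
      C * Real.log T := by
  obtain ⟨C, hC, hZ⟩ := H370.Zg_le H370.good_zeta
  refine ⟨Real.exp (h ^ 2 / 2) * C, by positivity, fun T hT U1 U2 h1 h2 t w => ?_⟩
  have h3 := hZ T hT U1 U2 h1 h2 (t + w)
  have h4 : nw (Zf riemannZeta U1 U2) (fun s => (mult riemannZeta s : ℝ)) t h w ≤
      Real.exp (h ^ 2 / 2) * H370.Zg riemannZeta U1 U2 (t + w) := by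
    unfold nw H370.Zg
    rw [Finset.mul_sum]
    refine Finset.sum_le_sum fun s _ => ?_
    split_ifs with hs
    · have h5 : 1 ≤ Real.exp (h ^ 2 / 2) * Real.exp (-(s.im - (t + w)) ^ 2 / 2) := by
        rw [← Real.exp_add]
        refine Real.one_le_exp ?_
        nlinarith [hs.1, hs.2]
      have h6 : (0 : ℝ) ≤ (mult riemannZeta s : ℝ) := by positivity
      calc (mult riemannZeta s : ℝ) = (mult riemannZeta s : ℝ) * 1 := (mul_one _).symm
        _ ≤ (mult riemannZeta s : ℝ) *
            (Real.exp (h ^ 2 / 2) * Real.exp (-(s.im - (t + w)) ^ 2 / 2)) :=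
          mul_le_mul_of_nonneg_left h5 h6
        _ = _ := by ring
    · positivity
  refine h4.trans ?_
  rw [mul_assoc]
  exact mul_le_mul_of_nonneg_left h3 (Real.exp_pos _).le

theorem nw_meas (Z : Finset ℂ) (m : ℂ → ℝ) (t h : ℝ) : Measurable (nw Z m t h) := by
  have e : nw Z m t h = fun w => ∑ s ∈ Z, (if s.im - t - h ≤ w ∧ w < s.im - t then m s else 0) :=
    rfl
  rw [e]
  refine Finset.measurable_sum _ fun s _ => ?_
  have hm : MeasurableSet {w : ℝ | s.im - t - h ≤ w ∧ w < s.im - t} := measurableSet_Ico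
  exact Measurable.ite hm measurable_const measurable_const

/-- the contribution of an exceptional set -/
theorem exc {E : Set ℝ} (hE : MeasurableSet E) {v c : ℝ} (hv : volume E ≤ ENNReal.ofReal v)
    (hv0 : 0 ≤ v) (hc : 0 ≤ c) : Integrable (E.indicator fun _ => c) ∧
      ∫ w, E.indicator (fun _ => c) w ≤ v * c := by
  have h1 : volume E ≠ ⊤ := ne_top_of_le_ne_top ENNReal.ofReal_ne_top hv
  constructor
  · exact (integrableOn_const h1).integrable_indicator hE
  · rw [integral_indicator_const c hE, smul_eq_mul]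
    exact mul_le_mul_of_nonneg_right (ENNReal.toReal_le_of_le_ofReal hv0 hv) hc

theorem t_CNT2 (hK : S_KER) : S_CNT2 := by
  obtain ⟨C0, hC0, hK⟩ := hK
  intro h hh
  obtain ⟨C1, hC1, hN⟩ := nw_log h
  obtain ⟨G, hG⟩ : ∃ G : ℝ, G = ∫ w : ℝ, Real.exp (-(1 / 4) * w ^ 2) := ⟨_, rfl⟩
  have hG0 : 0 ≤ G := by
    rw [hG]
    exact integral_nonneg fun w => (Real.exp_pos _).le
  have hGi : Integrable fun w : ℝ => Real.exp (-(1 / 4) * w ^ 2) :=
    integrable_exp_neg_mul_sq (by norm_num)
  obtain ⟨C2, hC2e⟩ : ∃ C2 : ℝ, C2 = C1 + 1 := ⟨_, rfl⟩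
  have hC2 : 0 < C2 := by linarith
  refine ⟨C2 * Real.exp 9 * G + C1 + 1, 10, by positivity, le_refl _,
    fun T hT U1 U2 hU1 hU1' hU2 hU2' B hB hB' t M ht ht' hM hM2 => ?_⟩
  obtain ⟨-, k1, k2, -, k3, -⟩ := hK B hB
  have hT0 : 0 < T := by linarith
  have hL : 1 ≤ Real.log T := by
    rw [Real.le_log_iff_exp_le hT0]
    linarith [Real.exp_one_lt_d9]
  have hLT : Real.log T ≤ T := (Real.log_le_sub_one_of_pos hT0).trans (by linarith)
  have hU : 1 ≤ U1 := by linarith
  have hTL : 0 ≤ C2 * (T * Real.log T) := by positivity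
  set L : ℝ := Real.log T with hLd
  set n : ℝ → ℝ := nw (Zf riemannZeta U1 U2) (fun s => (mult riemannZeta s : ℝ)) t h with hn
  have hn0 : ∀ w, 0 ≤ n w := fun w => nw_nonneg _ _ _ _
  have hnL : ∀ w, n w ≤ C1 * L := fun w => hN T (by linarith) U1 U2 hU1 hU2' t w
  have hLTL : L ≤ T * L := le_mul_of_one_le_left (by linarith) (by linarith)
  have hn1 : ∀ w, n w ≤ C2 * (T * L) := fun w => by
    refine (hnL w).trans ?_
    calc C1 * L ≤ C2 * L := mul_le_mul_of_nonneg_right (by linarith) (by linarith)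
      _ ≤ _ := mul_le_mul_of_nonneg_left hLTL hC2.le
  have hM1 : M ≤ C2 * (T * L) := by
    refine hM2.trans ?_
    calc L ^ 2 = L * L := sq L
      _ ≤ T * L := mul_le_mul_of_nonneg_right hLT (by linarith)
      _ ≤ _ := le_mul_of_one_le_left (by positivity) (by linarith)
  have hn2 : ∀ w, |w| ≤ L → n w = (NN riemannZeta (t + w) (t + w + h) : ℝ) := by
    intro w hw
    rw [abs_le] at hw
    exact nw_eq U1 U2 t h w hU (by linarith [hw.1]) (by linarith [hw.2])
  have hnm : Measurable n := nw_meas _ _ _ _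
  have hsw : ∫ v in (0 : ℝ)..h, ∑ s ∈ Zf riemannZeta U1 U2, (mult riemannZeta s : ℝ) *
      KR B (s.im - (t + v)) = ∫ w : ℝ, KR B w * n w :=
    swap (Zf riemannZeta U1 U2) (fun s => (mult riemannZeta s : ℝ)) t h hh.le (KR B) k2
  have hni : Integrable fun w => KR B w * n w := nw_int _ _ t h (KR B) k2
  have htl : ∀ w, L ≤ |w| → KR B w * (C2 * (T * L)) ≤
      C2 * Real.exp 9 * Real.exp (-(1 / 4) * w ^ 2) := by
    intro w hw
    refine le_trans ?_ (tail T B C2 w hT (by linarith) hB' hC2.le hw)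
    exact mul_le_mul_of_nonneg_right (k1 w).2 hTL
  have hpos : ∀ w : ℝ, 0 ≤ C2 * Real.exp 9 * Real.exp (-(1 / 4) * w ^ 2) := fun w => by positivity
  have hKB : ∀ w, KR B w ≤ L := by
    intro w
    refine (k1 w).2.trans ?_
    have : Real.exp (-w ^ 2 / 2) ≤ 1 := Real.exp_le_one_iff.2 (by nlinarith [sq_nonneg w])
    calc B * Real.exp (-w ^ 2 / 2) ≤ B * 1 := mul_le_mul_of_nonneg_left this (by linarith)
      _ ≤ L := by linarith
  have hL4 : L ^ (-(4 : ℝ)) * L ^ 3 ≤ 1 := by
    have h1 : L ^ (-(4 : ℝ)) * L ^ 3 = L ^ (-(1 : ℝ)) := by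
      rw [← Real.rpow_natCast L 3, ← Real.rpow_add (by linarith)]
      norm_num
    rw [h1]
    exact Real.rpow_le_one_of_one_le_of_nonpos hL (by norm_num)
  have hL40 : 0 ≤ L ^ (-(4 : ℝ)) := by positivity
  have hL2 : L ^ 2 ≤ L ^ 3 := pow_le_pow_right₀ hL (by norm_num)
  have habs : MeasurableSet {w : ℝ | |w| ≤ L} := measurableSet_le (by fun_prop) measurable_const
  rw [hsw]
  constructor
  · intro hup
    set E : Set ℝ := {w : ℝ | |w| ≤ L ∧ M < n w} with hE
    have hEm : MeasurableSet E := habs.inter (measurableSet_lt measurable_const hnm)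
    have hEv : volume E ≤ ENNReal.ofReal (L ^ (-(4 : ℝ))) := by
      have h1 : E = (fun w => t + w) ⁻¹' hiS h t L M := by
        ext w
        simp only [hE, hiS, Set.mem_preimage, Set.mem_ofPred_eq, add_sub_cancel_left]
        constructor
        · rintro ⟨h1, h2⟩
          rw [hn2 w h1] at h2
          exact ⟨h1, h2⟩
        · rintro ⟨h1, h2⟩
          rw [← hn2 w h1] at h2
          exact ⟨h1, h2⟩
      rw [h1, measure_preimage_add]
      exact hup
    have hc : 0 ≤ C1 * L ^ 2 := by positivity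
    obtain ⟨e1, e2⟩ := exc hEm hEv hL40 hc
    have h1 : ∫ w : ℝ, KR B w * n w ≤
        ∫ w : ℝ, ((KR B w * M + C2 * Real.exp 9 * Real.exp (-(1 / 4) * w ^ 2)) +
          E.indicator (fun _ => C1 * L ^ 2) w) := by
      refine integral_mono hni (((k3.mul_const M).add (hGi.const_mul _)).add e1) fun w => ?_
      simp only
      by_cases hw : |w| ≤ L
      · by_cases hwE : w ∈ E
        · rw [Set.indicator_of_mem hwE]
          have h2 : KR B w * n w ≤ L * (C1 * L) :=
            mul_le_mul (hKB w) (hnL w) (hn0 w) (by linarith)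
          have h3 := mul_nonneg (k1 w).1 hM
          have h4 : L * (C1 * L) = C1 * L ^ 2 := by ring
          linarith [hpos w]
        · rw [Set.indicator_of_notMem hwE]
          have h2 : n w ≤ M := by
            by_contra hcon
            exact hwE ⟨hw, not_le.1 hcon⟩
          have h3 := mul_le_mul_of_nonneg_left h2 (k1 w).1
          linarith [hpos w]
      · have hwE : w ∉ E := fun h' => hw h'.1
        rw [Set.indicator_of_notMem hwE]
        have h2 := mul_le_mul_of_nonneg_left (hn1 w) (k1 w).1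
        have h3 := mul_nonneg (k1 w).1 hM
        linarith [htl w (not_le.1 hw).le]
    have i1 : Integrable fun w => KR B w * M + C2 * Real.exp 9 * Real.exp (-(1 / 4) * w ^ 2) :=
      (k3.mul_const M).add (hGi.const_mul _)
    rw [integral_add i1 e1,
      integral_add (k3.mul_const M) (hGi.const_mul _), integral_mul_const,
      integral_const_mul, ← hG] at h1
    have h5 : L ^ (-(4 : ℝ)) * (C1 * L ^ 2) ≤ C1 := by
      calc L ^ (-(4 : ℝ)) * (C1 * L ^ 2) = C1 * (L ^ (-(4 : ℝ)) * L ^ 2) := by ring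
        _ ≤ C1 * (L ^ (-(4 : ℝ)) * L ^ 3) := by gcongr
        _ ≤ C1 * 1 := by gcongr
        _ = C1 := mul_one _
    linarith
  · intro hlow
    set E : Set ℝ := {w : ℝ | |w| ≤ L ∧ n w < M} with hE
    have hEm : MeasurableSet E := habs.inter (measurableSet_lt hnm measurable_const)
    have hEv : volume E ≤ ENNReal.ofReal (L ^ (-(4 : ℝ))) := by
      have h1 : E = (fun w => t + w) ⁻¹' loS h t L M := by
        ext w
        simp only [hE, loS, Set.mem_preimage, Set.mem_ofPred_eq, add_sub_cancel_left]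
        constructor
        · rintro ⟨h1, h2⟩
          rw [hn2 w h1] at h2
          exact ⟨h1, h2⟩
        · rintro ⟨h1, h2⟩
          rw [← hn2 w h1] at h2
          exact ⟨h1, h2⟩
      rw [h1, measure_preimage_add]
      exact hlow
    have hc : 0 ≤ L ^ 3 := by positivity
    obtain ⟨e1, e2⟩ := exc hEm hEv hL40 hc
    have h1 : ∫ w : ℝ, KR B w * M ≤
        ∫ w : ℝ, ((KR B w * n w + C2 * Real.exp 9 * Real.exp (-(1 / 4) * w ^ 2)) +
          E.indicator (fun _ => L ^ 3) w) := by
      refine integral_mono (k3.mul_const M) ((hni.add (hGi.const_mul _)).add e1) fun w => ?_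
      simp only
      by_cases hw : |w| ≤ L
      · by_cases hwE : w ∈ E
        · rw [Set.indicator_of_mem hwE]
          have h2 : KR B w * M ≤ L * L ^ 2 :=
            mul_le_mul (hKB w) hM2 hM (by linarith)
          have h3 := mul_nonneg (k1 w).1 (hn0 w)
          have h4 : L * L ^ 2 = L ^ 3 := by ring
          linarith [hpos w]
        · rw [Set.indicator_of_notMem hwE]
          have h2 : M ≤ n w := by
            by_contra hcon
            exact hwE ⟨hw, not_le.1 hcon⟩
          have h3 := mul_le_mul_of_nonneg_left h2 (k1 w).1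
          linarith [hpos w]
      · have hwE : w ∉ E := fun h' => hw h'.1
        rw [Set.indicator_of_notMem hwE]
        have h2 := mul_le_mul_of_nonneg_left hM1 (k1 w).1
        have h3 := mul_nonneg (k1 w).1 (hn0 w)
        linarith [htl w (not_le.1 hw).le]
    have i1 : Integrable fun w => KR B w * n w + C2 * Real.exp 9 * Real.exp (-(1 / 4) * w ^ 2) :=
      hni.add (hGi.const_mul _)
    rw [integral_add i1 e1, integral_add hni (hGi.const_mul _),
      integral_mul_const, integral_const_mul, ← hG] at h1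
    linarith

end

end Pool.Agent.Y258.OM2
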