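import Pool.Agent.Y746.OM.Stm

set_option autoImplicit false

/-! Project OM, job OM-G3: arithmetic lemmas. -/

namespace Pool.Agent.Y258.OM

open Finset
open Pool.Agent.Y746.OM

/-! ### sums of divisor functions -/

lemma harm (X : ℕ) : ∑ n ∈ Icc 1 X, (1 : ℝ) / n ≤ 1 + Real.log X := by
  have h := harmonic_le_one_add_log X
  rw [harmonic_eq_sum_Icc] at h
  push_cast at h
  simpa [one_div] using h

lemma divsum (X : ℕ) (F : ℕ × ℕ → ℝ) (hF : ∀ x, 0 ≤ F x) :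
    ∑ k ∈ Icc 1 X, ∑ x ∈ k.divisorsAntidiagonal, F x ≤ ∑ x ∈ Icc 1 X ×ˢ Icc 1 X, F x := by
  have h1 : ∀ k ∈ Icc 1 X, ∑ x ∈ k.divisorsAntidiagonal, F x =
      ∑ x ∈ ((Icc 1 X ×ˢ Icc 1 X).filter (fun x => x.1 * x.2 ≤ X)).filter
        (fun x => x.1 * x.2 = k), F x := by
    intro k hk
    rw [mem_Icc] at hk
    congr 1
    ext ⟨a, b⟩
    simp only [Nat.mem_divisorsAntidiagonal, mem_filter, mem_product, mem_Icc]
    constructor
    · rintro ⟨h, h0⟩
      have ha : 1 ≤ a := Nat.one_le_iff_ne_zero.2 (by rintro rfl; simp at h; omega)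
      have hb : 1 ≤ b := Nat.one_le_iff_ne_zero.2 (by rintro rfl; simp at h; omega)
      have h2 : a ≤ a * b := Nat.le_mul_of_pos_right _ hb
      have h3 : b ≤ a * b := Nat.le_mul_of_pos_left _ ha
      exact ⟨⟨⟨⟨ha, by omega⟩, hb, by omega⟩, by omega⟩, h⟩
    · rintro ⟨⟨_, _⟩, h⟩
      exact ⟨h, by omega⟩
  rw [sum_congr rfl h1, sum_fiberwise_of_maps_to]
  · exact sum_le_sum_of_subset_of_nonneg (filter_subset _ _) fun _ _ _ => hF _
  · rintro ⟨a, b⟩ hx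
    simp only [mem_filter, mem_product, mem_Icc] at hx ⊢
    exact ⟨Nat.mul_pos hx.1.1.1 hx.1.2.1, hx.2⟩

lemma dv_card (k : ℕ) : dv k = (k.divisorsAntidiagonal.card : ℝ) := by
  unfold dv
  rw [← Nat.map_div_right_divisors, card_map]

lemma dv_nonneg (k : ℕ) : 0 ≤ dv k := by
  unfold dv
  positivity

lemma dv_mul_le (a b : ℕ) : dv (a * b) ≤ dv a * dv b := by
  unfold dv
  rw [Nat.divisors_mul]
  exact_mod_cast card_mul_le

lemma prod_sum_sq (X : ℕ) (f : ℕ → ℝ) :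
    ∑ x ∈ Icc 1 X ×ˢ Icc 1 X, f x.1 * f x.2 = (∑ a ∈ Icc 1 X, f a) ^ 2 := by
  rw [sq, sum_mul_sum, sum_product]

lemma dv_sum1 (X : ℕ) : ∑ k ∈ Icc 1 X, dv k / k ≤ (∑ a ∈ Icc 1 X, (1 : ℝ) / a) ^ 2 := by
  rw [← prod_sum_sq X fun a => (1 : ℝ) / a]
  refine le_trans (le_of_eq ?_) (divsum X (fun x => (1 : ℝ) / x.1 * (1 / x.2))
    fun x => by positivity)
  refine sum_congr rfl fun k hk => ?_
  rw [dv_card, card_eq_sum_ones]
  push_cast
  rw [sum_div]
  refine sum_congr rfl fun x hx => ?_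
  rw [Nat.mem_divisorsAntidiagonal] at hx
  rw [← hx.1]
  push_cast
  rw [one_div_mul_one_div]

lemma dv_sum2 (X : ℕ) : ∑ k ∈ Icc 1 X, dv k ^ 2 / k ≤ (∑ a ∈ Icc 1 X, dv a / a) ^ 2 := by
  rw [← prod_sum_sq X fun a => dv a / a]
  refine le_trans ?_ (divsum X (fun x => dv x.1 / x.1 * (dv x.2 / x.2))
    fun x => mul_nonneg (div_nonneg (dv_nonneg _) (Nat.cast_nonneg _))
      (div_nonneg (dv_nonneg _) (Nat.cast_nonneg _)))
  refine sum_le_sum fun k hk => ?_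
  have h1 : dv k ^ 2 / k = ∑ x ∈ k.divisorsAntidiagonal, dv k / k := by
    rw [sum_const, nsmul_eq_mul, ← dv_card]
    ring
  rw [h1]
  refine sum_le_sum fun x hx => ?_
  rw [Nat.mem_divisorsAntidiagonal] at hx
  rw [← hx.1, div_mul_div_comm]
  push_cast
  exact div_le_div_of_nonneg_right (dv_mul_le _ _) (by positivity)

lemma dv_sum (X : ℕ) (_hX : 1 ≤ X) : ∑ k ∈ Icc 1 X, dv k ^ 2 / k ≤ (1 + Real.log X) ^ 4 := by
  have h0 : 0 ≤ ∑ a ∈ Icc 1 X, (1 : ℝ) / a := sum_nonneg fun _ _ => by positivity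
  have h1 : 0 ≤ ∑ a ∈ Icc 1 X, dv a / a := sum_nonneg fun _ _ =>
    div_nonneg (dv_nonneg _) (Nat.cast_nonneg _)
  calc ∑ k ∈ Icc 1 X, dv k ^ 2 / k ≤ (∑ a ∈ Icc 1 X, dv a / a) ^ 2 := dv_sum2 X
    _ ≤ ((∑ a ∈ Icc 1 X, (1 : ℝ) / a) ^ 2) ^ 2 := pow_le_pow_left₀ h1 (dv_sum1 X) 2
    _ = (∑ a ∈ Icc 1 X, (1 : ℝ) / a) ^ 4 := by ring
    _ ≤ _ := pow_le_pow_left₀ h0 (harm X) 4

/-! ### products of Dirichlet polynomials -/

/-- the coefficients of the product `ζ M` -/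
noncomputable def cv (N k : ℕ) : ℂ :=
  ∑ x ∈ (Icc 1 N ×ˢ Icc 1 N).filter (fun x => x.1 * x.2 = k), mu x.2

lemma mu_norm (k : ℕ) : ‖mu k‖ ≤ 1 := by
  unfold mu
  rw [Complex.norm_intCast]
  have h := ArithmeticFunction.abs_moebius_le_one (n := k)
  have h2 : ((|ArithmeticFunction.moebius k| : ℤ) : ℝ) ≤ ((1 : ℤ) : ℝ) := by exact_mod_cast h
  simpa using h2

lemma DD_mul (N : ℕ) (s : ℂ) : DD (fun _ => 1) N s * DD mu N s = DD (cv N) (N ^ 2) s := by
  unfold DD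
  rw [sum_mul_sum, ← sum_product']
  have hmap : ∀ x ∈ Icc 1 N ×ˢ Icc 1 N, x.1 * x.2 ∈ Icc 1 (N ^ 2) := by
    rintro ⟨a, b⟩ hx
    simp only [mem_product, mem_Icc] at hx ⊢
    refine ⟨Nat.mul_pos hx.1.1 hx.2.1, ?_⟩
    rw [sq]
    exact Nat.mul_le_mul hx.1.2 hx.2.2
  rw [← sum_fiberwise_of_maps_to hmap]
  refine sum_congr rfl fun k hk => ?_
  unfold cv
  rw [sum_mul]
  refine sum_congr rfl fun x hx => ?_
  rw [mem_filter] at hx
  rw [← hx.2]
  push_cast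
  rw [Complex.natCast_mul_natCast_cpow]
  ring

lemma cv_norm (N k : ℕ) : ‖cv N k‖ ≤ dv k := by
  unfold cv
  refine (norm_sum_le _ _).trans ?_
  refine (sum_le_card_nsmul _ _ _ fun x _ => mu_norm x.2).trans ?_
  rw [nsmul_eq_mul, mul_one, dv_card]
  have h : (Icc 1 N ×ˢ Icc 1 N).filter (fun x => x.1 * x.2 = k) ⊆ k.divisorsAntidiagonal := by
    rintro ⟨a, b⟩ hx
    simp only [mem_filter, mem_product, mem_Icc] at hx
    rw [Nat.mem_divisorsAntidiagonal]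
    refine ⟨hx.2, ?_⟩
    rw [← hx.2]
    exact (Nat.mul_pos hx.1.1.1 hx.1.2.1).ne'
  exact_mod_cast card_le_card h

lemma cv_low (N k : ℕ) (h1 : 1 ≤ k) (hk : k ≤ N) : cv N k = if k = 1 then 1 else 0 := by
  have h : (Icc 1 N ×ˢ Icc 1 N).filter (fun x => x.1 * x.2 = k) = k.divisorsAntidiagonal := by
    ext ⟨a, b⟩
    simp only [Nat.mem_divisorsAntidiagonal, mem_filter, mem_product, mem_Icc]
    constructor
    · rintro ⟨_, h⟩
      exact ⟨h, by omega⟩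
    · rintro ⟨h, h0⟩
      have ha : 1 ≤ a := Nat.one_le_iff_ne_zero.2 (by rintro rfl; simp at h; omega)
      have hb : 1 ≤ b := Nat.one_le_iff_ne_zero.2 (by rintro rfl; simp at h; omega)
      have h2 : a ≤ a * b := Nat.le_mul_of_pos_right _ hb
      have h3 : b ≤ a * b := Nat.le_mul_of_pos_left _ ha
      exact ⟨⟨⟨ha, by omega⟩, hb, by omega⟩, h⟩
  unfold cv
  rw [h]
  have h2 := congrArg (fun f : ArithmeticFunction ℤ => f k) ArithmeticFunction.coe_zeta_mul_moebius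
  simp only [ArithmeticFunction.mul_apply, ArithmeticFunction.one_apply] at h2
  have h3 : ∑ x ∈ k.divisorsAntidiagonal, mu x.2 =
      ((∑ x ∈ k.divisorsAntidiagonal, ((ArithmeticFunction.zeta : ArithmeticFunction ℤ) x.1) *
        ArithmeticFunction.moebius x.2 : ℤ) : ℂ) := by
    push_cast
    refine sum_congr rfl fun x hx => ?_
    have hx1 : x.1 ≠ 0 := by
      rw [Nat.mem_divisorsAntidiagonal] at hx
      rintro h
      rw [h, zero_mul] at hx
      exact hx.2 hx.1.symm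
    rw [ArithmeticFunction.natCoe_apply, ArithmeticFunction.zeta_apply, if_neg hx1]
    unfold mu
    simp
  rw [h3, h2]
  split_ifs <;> simp

/-- the coefficients of `1 - ζ M` -/
noncomputable def gt (N k : ℕ) : ℂ := if k ≤ N then 0 else -cv N k

lemma gt_norm (N k : ℕ) : ‖gt N k‖ ≤ dv k := by
  unfold gt
  split_ifs
  · rw [norm_zero]
    exact dv_nonneg k
  · rw [norm_neg]
    exact cv_norm N k

lemma gt_low (N k : ℕ) (h : k ≤ N) : gt N k = 0 := if_pos h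

lemma one_sub (N : ℕ) (hN : 1 ≤ N) (s : ℂ) :
    1 - DD (fun _ => 1) N s * DD mu N s = DD (gt N) (N ^ 2) s := by
  rw [DD_mul]
  have h1 : (1 : ℂ) = ∑ k ∈ Icc 1 (N ^ 2), (if k = 1 then (1 : ℂ) else 0) * (k : ℂ) ^ (-s) := by
    rw [sum_eq_single 1]
    · simp
    · intro b _ hb
      rw [if_neg hb, zero_mul]
    · intro h
      exact absurd (mem_Icc.2 ⟨le_refl 1, Nat.one_le_pow _ _ hN⟩) h
  unfold DD
  conv_lhs => rw [h1]
  rw [← sum_sub_distrib]
  refine sum_congr rfl fun k hk => ?_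
  rw [mem_Icc] at hk
  rw [← sub_mul]
  congr 1
  unfold gt
  split_ifs with h2 h3 h3
  · rw [cv_low N k hk.1 h3, if_pos h2, sub_self]
  · omega
  · rw [cv_low N k hk.1 h3, if_neg h2, sub_self]
  · rw [zero_sub]

/-! ### the resonator -/

section res

variable {P : Finset ℕ} {r : ℕ → ℝ} {Q : ℝ}

lemma FS_le {S : Finset ℕ} (hS : S ∈ FS P Q) : (qS S : ℝ) ≤ Q := (mem_filter.1 hS).2

lemma FS_sub {S : Finset ℕ} (hS : S ∈ FS P Q) : S ⊆ P := mem_powerset.1 (mem_filter.1 hS).1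

lemma FS_pos (hP : ∀ p ∈ P, p.Prime) {S : Finset ℕ} (hS : S ∈ FS P Q) : 0 < qS S :=
  prod_pos fun p hp => (hP p (FS_sub hS hp)).pos

lemma EP_one_le (hr : ∀ p ∈ P, 0 ≤ r p) : 1 ≤ EP P r := by
  unfold EP
  have h := prod_le_prod (s := P) (f := fun _ => (1 : ℝ))
    (g := fun p => 1 + r p ^ 2 + 8 * r p / Real.sqrt p) (fun _ _ => zero_le_one) (fun p hp => by
      have := hr p hp
      have h2 : 0 ≤ 8 * r p / Real.sqrt p := by positivity
      nlinarith [sq_nonneg (r p)])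
  rwa [prod_const_one] at h

lemma sum_FS (hP : ∀ p ∈ P, p.Prime) (hr : ∀ p ∈ P, 0 ≤ r p) (hQ : 1 ≤ Q) :
    (∑ S ∈ FS P Q, ∏ p ∈ S, r p) ^ 2 ≤ Q * EP P r := by
  have h1 : ∑ S ∈ FS P Q, ∏ p ∈ S, r p ≤ Real.sqrt Q * ∏ p ∈ P, (1 + r p / Real.sqrt p) := by
    rw [prod_one_add, mul_sum]
    refine le_trans (sum_le_sum fun S hS => ?_) (sum_le_sum_of_subset_of_nonneg
      (s := FS P Q) (filter_subset _ _) fun S hS _ => ?_)
    · have h2 : ∏ p ∈ S, r p = Real.sqrt (qS S : ℝ) * ∏ p ∈ S, r p / Real.sqrt p := by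
        have h3 : Real.sqrt (qS S : ℝ) = ∏ p ∈ S, Real.sqrt p := by
          unfold qS
          push_cast
          rw [Real.sqrt_prod]
          intro i _
          positivity
        rw [h3, ← prod_mul_distrib]
        refine prod_congr rfl fun p hp => ?_
        have h4 : 0 < Real.sqrt p := Real.sqrt_pos.2 (by exact_mod_cast (hP p (FS_sub hS hp)).pos)
        field_simp
      rw [h2]
      refine mul_le_mul_of_nonneg_right (Real.sqrt_le_sqrt (FS_le hS)) ?_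
      exact prod_nonneg fun p hp => div_nonneg (hr p (FS_sub hS hp)) (Real.sqrt_nonneg _)
    · have hS' := mem_powerset.1 hS
      exact mul_nonneg (Real.sqrt_nonneg _)
        (prod_nonneg fun p hp => div_nonneg (hr p (hS' hp)) (Real.sqrt_nonneg _))
  have h0 : 0 ≤ ∑ S ∈ FS P Q, ∏ p ∈ S, r p :=
    sum_nonneg fun S hS => prod_nonneg fun p hp => hr p (FS_sub hS hp)
  refine (pow_le_pow_left₀ h0 h1 2).trans ?_
  rw [mul_pow, Real.sq_sqrt (by linarith), ← prod_pow]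
  refine mul_le_mul_of_nonneg_left ?_ (by linarith)
  unfold EP
  refine prod_le_prod (fun p hp => sq_nonneg _) fun p hp => ?_
  have hp0 := hr p hp
  have hp1 : (1 : ℝ) ≤ p := by exact_mod_cast (hP p hp).one_lt.le
  have hs : 1 ≤ Real.sqrt p := by
    rw [Real.one_le_sqrt]
    exact hp1
  have h5 : r p / Real.sqrt p ≤ r p := div_le_self hp0 hs
  have h6 : 0 ≤ r p / Real.sqrt p := by positivity
  have h7 : (r p / Real.sqrt p) ^ 2 ≤ r p ^ 2 := pow_le_pow_left₀ h6 h5 2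
  have h8 : 8 * r p / Real.sqrt p = 8 * (r p / Real.sqrt p) := by ring
  rw [h8]
  nlinarith

end res

end Pool.Agent.Y258.OM
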